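import Mathlib

/-!
Definitions used in the hand-in statement: the proof system, the binary clique formula (helper1, helper62).
-/

set_option autoImplicit false
open scoped Classical

namespace CliqueGates

/-- The assignments of the Boolean variables `X`. -/
abbrev Pt (X : Type) := X → Bool

/-- The function `g` is a polynomial of degree at most `d` over `F` in the variables (which take the values `0`, `1`). -/
def DegLE (F : Type) [Field F] {X : Type} [Fintype X] (d : ℕ) (g : Pt X → F) : Prop :=
  ∃ a : Finset X → F, ∀ x, g x = ∑ T ∈ Finset.univ.filter (fun T : Finset X => T.card ≤ d),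
    a T * ∏ i ∈ T, (if x i = true then 1 else 0)

/-- A gate of degree `d`: the disjunction of any number of conditions `g x ≠ 0` with polynomials `g` of degree at most
`d` over `F`. -/
structure Gate (F : Type) [Field F] (X : Type) [Fintype X] (d : ℕ) where
  E : Set (Pt X → F)
  hE : ∀ g ∈ E, DegLE F d g

/-- The gate is true at the assignment `x`. -/
def Gate.Holds {F : Type} [Field F] {X : Type} [Fintype X] {d : ℕ} (A : Gate F X d) (x : Pt X) : Prop :=
  ∃ g ∈ A.E, g x ≠ 0

/-- A proof line over `N` gates: a polynomial of degree at most `s` in the values of the gates; the coefficient `a S` of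
the product of the gates in `S` is itself a polynomial of degree at most `t` in the variables. -/
structure Line (F : Type) [Field F] (X : Type) [Fintype X] (N s t : ℕ) where
  a : Finset (Fin N) → Pt X → F
  ha : ∀ S, DegLE F t (a S)

/-- The value of the polynomial at the assignment `x`, with gates `H`. -/
noncomputable def Line.val {F : Type} [Field F] {X : Type} [Fintype X] {d N s t : ℕ} (H : Fin N → Gate F X d)
    (l : Line F X N s t) (x : Pt X) : F :=
  ∑ S ∈ Finset.univ.filter (fun S : Finset (Fin N) => S.card ≤ s), l.a S x * ∏ i ∈ S, (if (H i).Holds x then 1 else 0)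

/-- The line is true at the assignment `x`: the polynomial is zero. -/
def Line.Holds {F : Type} [Field F] {X : Type} [Fintype X] {d N s t : ℕ} (H : Fin N → Gate F X d)
    (l : Line F X N s t) (x : Pt X) : Prop :=
  l.val H x = 0

/-- The vertices: `k` parts with `2 ^ b` vertices each; the vertices of a part are named by `b` bits. -/
abbrev Vertex (k b : ℕ) := Fin k × (Fin b → Bool)

/-- The variables `(i, s)` (`s < b`) of the binary clique formula name a vertex of the part `i`; the assignment `x`
chooses the vertex `v` if they have the values `v.2`. -/
def Chooses {k b : ℕ} (x : Pt (Fin k × Fin b)) (v : Vertex k b) : Prop := ∀ s, x (v.1, s) = v.2 s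

/-- The binary clique formula of `G` says that one vertex of every part is chosen and that the chosen vertices form a
clique. Its clauses say that `v` and `w` are not both chosen, for all non-adjacent vertices `v`, `w` of different parts.
It has a refutation with `N` different gates of degree `d` over `F` and any number `len` of lines: every line is implied
by a clause or by at most `f` earlier lines; some line is false everywhere. -/
def Refutes (F : Type) [Field F] {k b : ℕ} (d s t f : ℕ) (G : SimpleGraph (Vertex k b)) (N : ℕ) : Prop :=
  ∃ (H : Fin N → Gate F (Fin k × Fin b) d) (len : ℕ) (l : ℕ → Line F (Fin k × Fin b) N s t),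
    (∃ i < len, ∀ x, ¬ (l i).Holds H x) ∧
    ∀ i < len, (∃ v w : Vertex k b, v.1 ≠ w.1 ∧ ¬ G.Adj v w ∧
        ∀ x, ¬ (Chooses x v ∧ Chooses x w) → (l i).Holds H x) ∨
      ∃ J : Finset ℕ, J.card ≤ f ∧ (∀ j ∈ J, j < i) ∧ ∀ x, (∀ j ∈ J, (l j).Holds H x) → (l i).Holds H x

end CliqueGates
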