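import Pool.Agent.H62.PG.Defs
import Pool.Agent.H1.WC.Mo

/-!
# Random `k`-CNFs with `m ≥ 2 ^ (k + 3) n` clauses: every assignment falsifies more than `m / 2 ^ (k + 2)` clauses
-/

set_option autoImplicit false
open scoped Classical

namespace H1WG

open Finset PolyGates H1WC

theorem Fals_card {n k : ℕ} (x : Pt n) :
    (univ.filter (fun C : KClause n k => C.Holds x)).card + Fintype.card (Fin k ↪ Fin n)
      = Fintype.card (KClause n k) := by
  have hbad : (univ.filter (fun C : KClause n k => ¬ C.Holds x)).card = Fintype.card (Fin k ↪ Fin n) := by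
    have himg : (univ.filter (fun C : KClause n k => ¬ C.Holds x))
        = univ.image (fun e : Fin k ↪ Fin n => ((e, fun i => !(x (e i))) : KClause n k)) := by
      ext C
      simp only [Finset.mem_filter, Finset.mem_univ, true_and, Finset.mem_image]
      have hz : ∀ a b : Bool, a ≠ b → (!a) = b := by decide
      have hz' : ∀ a : Bool, a ≠ !a := by decide
      constructor
      · intro h
        refine ⟨C.1, Prod.ext rfl ?_⟩
        funext i
        exact hz _ _ (fun h1 => h ⟨i, h1⟩)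
      · rintro ⟨e, rfl⟩ ⟨i, hi⟩
        exact hz' _ hi
    rw [himg, Finset.card_image_of_injective]
    · rfl
    · intro e e' h
      exact (Prod.ext_iff.1 h).1
  have hsum := Finset.card_filter_add_card_filter_not (s := (univ : Finset (KClause n k)))
    (p := fun C : KClause n k => C.Holds x)
  rw [hbad, Finset.card_univ] at hsum
  exact hsum

theorem Fals_cardK (n k : ℕ) : Fintype.card (KClause n k) = Fintype.card (Fin k ↪ Fin n) * 2 ^ k := by
  rw [Fintype.card_prod, Fintype.card_fun, Fintype.card_bool, Fintype.card_fin]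

theorem Fals_point {n k m : ℕ} (hm : 2 ^ (k + 3) * n ≤ m) (x : Pt n) :
    ((univ.filter (fun Φ : Fin m → KClause n k => 2 ^ (k + 2) * (univ.filter (fun j => ¬ (Φ j).Holds x)).card ≤ m)).card : ℝ)
      ≤ (Fintype.card (KClause n k) : ℝ) ^ m * Real.exp (-(2.6 * n)) := by
  have h2k : 0 < 2 ^ (k + 2) := by positivity
  have hmom := moment m (m - m / 2 ^ (k + 2)) (fun C : KClause n k => C.Holds x)
  have hsub : (univ.filter (fun Φ : Fin m → KClause n k =>
      2 ^ (k + 2) * (univ.filter (fun j => ¬ (Φ j).Holds x)).card ≤ m)) ⊆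
      (univ.filter (fun Φ : Fin m → KClause n k =>
        m - m / 2 ^ (k + 2) ≤ (univ.filter (fun j => (Φ j).Holds x)).card)) := by
    intro Φ hΦ
    rw [Finset.mem_filter] at hΦ ⊢
    refine ⟨hΦ.1, ?_⟩
    have h1 := Finset.card_filter_add_card_filter_not (s := (univ : Finset (Fin m)))
      (p := fun j => (Φ j).Holds x)
    rw [Finset.card_univ, Fintype.card_fin] at h1
    have h2 : (univ.filter (fun j => ¬ (Φ j).Holds x)).card ≤ m / 2 ^ (k + 2) :=
      (Nat.le_div_iff_mul_le h2k).2 (by rw [mul_comm]; exact hΦ.2)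
    omega
  have hc1 := Finset.card_le_card hsub
  set B := (univ.filter (fun Φ : Fin m → KClause n k =>
      2 ^ (k + 2) * (univ.filter (fun j => ¬ (Φ j).Holds x)).card ≤ m)).card with hB
  have hc := Fals_card (k := k) x
  have hK := Fals_cardK n k
  set Z := (univ.filter (fun C : KClause n k => C.Holds x)).card with hZ
  set Q := Fintype.card (KClause n k) with hQ
  set e0 := Fintype.card (Fin k ↪ Fin n) with he0
  have h3 : B * 2 ^ (m - m / 2 ^ (k + 2)) ≤ (Q + Z) ^ m := le_trans (Nat.mul_le_mul_right _ hc1) hmom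
  have h3r : (B : ℝ) * 2 ^ (m - m / 2 ^ (k + 2)) ≤ ((Q : ℝ) + Z) ^ m := by exact_mod_cast h3
  have hkr : (0 : ℝ) < 2 ^ k := by positivity
  have hZr : (Q : ℝ) + Z = Q * 2 * (1 - 1 / 2 ^ (k + 1)) := by
    have h4 : (Z : ℝ) + e0 = Q := by exact_mod_cast hc
    have h5 : (Q : ℝ) = e0 * 2 ^ k := by exact_mod_cast hK
    have h6 : (e0 : ℝ) = Q * (1 / 2 ^ k) := by
      rw [h5]
      field_simp
    have h7 : (Z : ℝ) = Q - Q * (1 / 2 ^ k) := by linarith
    rw [h7, pow_succ]
    field_simp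
    ring
  set v : ℝ := (m : ℝ) / 2 ^ (k + 2) with hv
  have hv1 : (2 * n : ℝ) ≤ v := by
    rw [hv, le_div_iff₀ (by positivity)]
    have : ((2 : ℝ) ^ (k + 3) * n) ≤ m := by exact_mod_cast hm
    have h8 : (2 : ℝ) ^ (k + 3) = 2 * 2 ^ (k + 2) := by
      rw [pow_succ (2 : ℝ) (k + 2)]
      ring
    rw [h8] at this
    linarith
  have e1 : ((1 : ℝ) - 1 / 2 ^ (k + 1)) ^ m ≤ Real.exp (-(2 * v)) := by
    have h9 : 0 ≤ 1 - 1 / (2 : ℝ) ^ (k + 1) := by
      have h10 : (1 : ℝ) ≤ 2 ^ (k + 1) := one_le_pow₀ (by norm_num)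
      have : 1 / (2 : ℝ) ^ (k + 1) ≤ 1 := by
        rw [div_le_one (by positivity)]
        exact h10
      linarith
    calc ((1 : ℝ) - 1 / 2 ^ (k + 1)) ^ m ≤ (Real.exp (-(1 / 2 ^ (k + 1)))) ^ m :=
          pow_le_pow_left₀ h9 (Real.one_sub_le_exp_neg _) m
      _ = Real.exp (-(2 * v)) := by
        rw [← Real.exp_nat_mul, hv]
        congr 1
        have h11 : (2 : ℝ) ^ (k + 2) = 2 * 2 ^ (k + 1) := by
          rw [pow_succ (2 : ℝ) (k + 1)]
          ring
        rw [h11]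
        field_simp
  have e2 : (2 : ℝ) ^ m ≤ 2 ^ (m - m / 2 ^ (k + 2)) * Real.exp (0.7 * v) := by
    have hle : m / 2 ^ (k + 2) ≤ m := Nat.div_le_self _ _
    have h12 : (2 : ℝ) ^ m = 2 ^ (m - m / 2 ^ (k + 2)) * 2 ^ (m / 2 ^ (k + 2)) := by
      rw [← pow_add]
      congr 1
      omega
    rw [h12]
    refine mul_le_mul_of_nonneg_left ?_ (by positivity)
    have h13 : (2 : ℝ) ^ (m / 2 ^ (k + 2)) = Real.exp (Real.log 2 * ((m / 2 ^ (k + 2) : ℕ) : ℝ)) := by
      rw [Real.exp_mul, Real.exp_log (by norm_num), Real.rpow_natCast]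
    rw [h13]
    apply Real.exp_le_exp.2
    have h14 : ((m / 2 ^ (k + 2) : ℕ) : ℝ) ≤ v := by
      rw [hv]
      have := @Nat.cast_div_le ℝ _ _ _ m (2 ^ (k + 2))
      push_cast at this
      exact this
    have h15 := Real.log_two_lt_d9
    have h16 := Real.log_two_gt_d9
    have h17 : (0 : ℝ) ≤ ((m / 2 ^ (k + 2) : ℕ) : ℝ) := by positivity
    nlinarith
  have hQ0 : (0 : ℝ) ≤ Q := by positivity
  have h20 : ((Q : ℝ) + Z) ^ m = (Q : ℝ) ^ m * 2 ^ m * (1 - 1 / 2 ^ (k + 1)) ^ m := by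
    rw [hZr, mul_pow, mul_pow]
  rw [h20] at h3r
  have h21 : (Q : ℝ) ^ m * 2 ^ m * (1 - 1 / 2 ^ (k + 1)) ^ m ≤
      (Q : ℝ) ^ m * (2 ^ (m - m / 2 ^ (k + 2)) * Real.exp (0.7 * v)) * Real.exp (-(2 * v)) := by
    have h9 : 0 ≤ 1 - 1 / (2 : ℝ) ^ (k + 1) := by
      have h10 : (1 : ℝ) ≤ 2 ^ (k + 1) := one_le_pow₀ (by norm_num)
      have : 1 / (2 : ℝ) ^ (k + 1) ≤ 1 := by
        rw [div_le_one (by positivity)]
        exact h10
      linarith
    refine mul_le_mul ?_ e1 (by positivity) (by positivity)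
    exact mul_le_mul_of_nonneg_left e2 (by positivity)
  have h22 : (B : ℝ) * 2 ^ (m - m / 2 ^ (k + 2)) ≤
      ((Q : ℝ) ^ m * (Real.exp (0.7 * v) * Real.exp (-(2 * v)))) * 2 ^ (m - m / 2 ^ (k + 2)) := by
    refine le_trans h3r (le_trans h21 (le_of_eq ?_))
    ring
  have h23 : (B : ℝ) ≤ (Q : ℝ) ^ m * (Real.exp (0.7 * v) * Real.exp (-(2 * v))) :=
    le_of_mul_le_mul_right h22 (by positivity)
  refine le_trans h23 ?_
  refine mul_le_mul_of_nonneg_left ?_ (by positivity)
  rw [← Real.exp_add]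
  apply Real.exp_le_exp.2
  linarith

/-- For three quarters of the `k`-CNFs every assignment falsifies more than `m / 2 ^ (k + 2)` clauses. -/
theorem few_false {n k m : ℕ} (hn : 1 ≤ n) (hm : 2 ^ (k + 3) * n ≤ m) :
    4 * (univ.filter (fun Φ : Fin m → KClause n k =>
      ∃ x : Pt n, 2 ^ (k + 2) * (univ.filter (fun j => ¬ (Φ j).Holds x)).card ≤ m)).card ≤
      Fintype.card (Fin m → KClause n k) := by
  have hcover : (univ.filter (fun Φ : Fin m → KClause n k =>
      ∃ x : Pt n, 2 ^ (k + 2) * (univ.filter (fun j => ¬ (Φ j).Holds x)).card ≤ m)) ⊆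
      (univ : Finset (Pt n)).biUnion (fun x => univ.filter (fun Φ : Fin m → KClause n k =>
        2 ^ (k + 2) * (univ.filter (fun j => ¬ (Φ j).Holds x)).card ≤ m)) := by
    intro Φ hΦ
    obtain ⟨x, hx⟩ := (Finset.mem_filter.1 hΦ).2
    exact Finset.mem_biUnion.2 ⟨x, Finset.mem_univ _, Finset.mem_filter.2 ⟨Finset.mem_univ _, hx⟩⟩
  have h1 := le_trans (Finset.card_le_card hcover) Finset.card_biUnion_le
  have h1r : ((univ.filter (fun Φ : Fin m → KClause n k =>
      ∃ x : Pt n, 2 ^ (k + 2) * (univ.filter (fun j => ¬ (Φ j).Holds x)).card ≤ m)).card : ℝ) ≤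
      ∑ x : Pt n, ((univ.filter (fun Φ : Fin m → KClause n k =>
        2 ^ (k + 2) * (univ.filter (fun j => ¬ (Φ j).Holds x)).card ≤ m)).card : ℝ) := by
    exact_mod_cast h1
  have h2 : ∑ x : Pt n, ((univ.filter (fun Φ : Fin m → KClause n k =>
        2 ^ (k + 2) * (univ.filter (fun j => ¬ (Φ j).Holds x)).card ≤ m)).card : ℝ) ≤
      ∑ _x : Pt n, (Fintype.card (KClause n k) : ℝ) ^ m * Real.exp (-(2.6 * n)) :=
    Finset.sum_le_sum fun x _ => Fals_point hm x
  rw [Finset.sum_const, Finset.card_univ, Fintype.card_fun, Fintype.card_bool, Fintype.card_fin, nsmul_eq_mul] at h2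
  have h3 : ((2 ^ n : ℕ) : ℝ) * ((Fintype.card (KClause n k) : ℝ) ^ m * Real.exp (-(2.6 * n))) ≤
      (Fintype.card (KClause n k) : ℝ) ^ m * (1 / 4) := by
    have h4 : ((2 ^ n : ℕ) : ℝ) * Real.exp (-(2.6 * n)) ≤ 1 / 4 := by
      have h5 : ((2 ^ n : ℕ) : ℝ) = Real.exp (Real.log 2 * (n : ℝ)) := by
        rw [Real.exp_mul, Real.exp_log (by norm_num), Real.rpow_natCast]
        push_cast
        rfl
      rw [h5, ← Real.exp_add]
      have h6 := Real.log_two_lt_d9
      have hn1 : (1 : ℝ) ≤ n := by exact_mod_cast hn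
      have h7 : Real.log 2 * (n : ℝ) + -(2.6 * n) ≤ -(2 * Real.log 2) := by nlinarith
      refine le_trans (Real.exp_le_exp.2 h7) (le_of_eq ?_)
      rw [Real.exp_neg, two_mul, Real.exp_add, Real.exp_log (by norm_num)]
      norm_num
    calc ((2 ^ n : ℕ) : ℝ) * ((Fintype.card (KClause n k) : ℝ) ^ m * Real.exp (-(2.6 * n))) =
          (Fintype.card (KClause n k) : ℝ) ^ m * (((2 ^ n : ℕ) : ℝ) * Real.exp (-(2.6 * n))) := by ring
      _ ≤ _ := mul_le_mul_of_nonneg_left h4 (by positivity)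
  have h8 : (4 : ℝ) * ((univ.filter (fun Φ : Fin m → KClause n k =>
      ∃ x : Pt n, 2 ^ (k + 2) * (univ.filter (fun j => ¬ (Φ j).Holds x)).card ≤ m)).card : ℝ) ≤
      (Fintype.card (Fin m → KClause n k) : ℝ) := by
    have h9 : (Fintype.card (Fin m → KClause n k) : ℝ) = (Fintype.card (KClause n k) : ℝ) ^ m := by
      rw [Fintype.card_fun, Fintype.card_fin]
      push_cast
      rfl
    rw [h9]
    linarith
  exact_mod_cast h8

end H1WG
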