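import Pool.Agent.H1.WG.Deg

/-!
# The graph of a CNF and the substitution in a refutation
-/

set_option autoImplicit false
open scoped Classical

namespace H1WG

open Finset

section
variable {n k0 m k b : ℕ}

/-- the name of a vertex of part `i` for the assignment `x` -/
def nm (τ : Fin k → Fin b → Option (Fin n)) (i : Fin k) (x : PolyGates.Pt n) : Fin b → Bool :=
  fun s => (τ i s).elim false x

/-- The graph: `(i, u)` and `(j, w)` are adjacent if `i ≠ j` and some assignment, which makes all clauses of the parts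
`i` and `j` true, gives them their names. -/
def gr (Φ : Fin m → PolyGates.KClause n k0) (T : Fin k → Finset (Fin m)) (τ : Fin k → Fin b → Option (Fin n)) :
    SimpleGraph (CliqueGates.Vertex k b) where
  Adj v w := v.1 ≠ w.1 ∧ ∃ x : PolyGates.Pt n, nm τ v.1 x = v.2 ∧ nm τ w.1 x = w.2 ∧
    (∀ j ∈ T v.1, (Φ j).Holds x) ∧ ∀ j ∈ T w.1, (Φ j).Holds x
  symm := ⟨by
    rintro v w ⟨h1, x, h2, h3, h4, h5⟩
    exact ⟨h1.symm, x, h3, h2, h5, h4⟩⟩
  loopless := ⟨by
    rintro v ⟨h1, _⟩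
    exact h1 rfl⟩

/-- The slots of part `i` contain the variables of its clauses. -/
def Cov (Φ : Fin m → PolyGates.KClause n k0) (T : Fin k → Finset (Fin m)) (τ : Fin k → Fin b → Option (Fin n)) : Prop :=
  ∀ i, ∀ j ∈ T i, ∀ a, ∃ s, τ i s = some ((Φ j).1 a)

theorem nm_eq {τ : Fin k → Fin b → Option (Fin n)} {i : Fin k} {x y : PolyGates.Pt n} (h : nm τ i x = nm τ i y)
    {s : Fin b} {v : Fin n} (hs : τ i s = some v) : x v = y v := by
  have h1 := congrFun h s
  simp only [nm, hs, Option.elim_some] at h1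
  exact h1

theorem holds_congr {C : PolyGates.KClause n k0} {x y : PolyGates.Pt n} (h : ∀ a, x (C.1 a) = y (C.1 a))
    (hx : C.Holds x) : C.Holds y := by
  obtain ⟨a, ha⟩ := hx
  exact ⟨a, by rw [← h a]; exact ha⟩

/-- Axioms: if `v` and `w` are not adjacent, then the assignments which give them their names make one clause false. -/
theorem axiom_case {Φ : Fin m → PolyGates.KClause n k0} {T : Fin k → Finset (Fin m)}
    {τ : Fin k → Fin b → Option (Fin n)} (hcov : Cov Φ T τ) {v w : CliqueGates.Vertex k b} (hvw : v.1 ≠ w.1)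
    (h : ¬ (gr Φ T τ).Adj v w) (hm : 0 < m) :
    ∃ j, ∀ x, (Φ j).Holds x → ¬ (nm τ v.1 x = v.2 ∧ nm τ w.1 x = w.2) := by
  by_cases hx0 : ∃ x0, nm τ v.1 x0 = v.2 ∧ nm τ w.1 x0 = w.2
  · obtain ⟨x0, h1, h2⟩ := hx0
    have h3 : ¬ ((∀ j ∈ T v.1, (Φ j).Holds x0) ∧ ∀ j ∈ T w.1, (Φ j).Holds x0) := by
      intro h4
      exact h ⟨hvw, x0, h1, h2, h4.1, h4.2⟩
    have h4 : (∃ j ∈ T v.1, ¬ (Φ j).Holds x0) ∨ ∃ j ∈ T w.1, ¬ (Φ j).Holds x0 := by
      by_contra hcon
      push Not at hcon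
      exact h3 hcon
    rcases h4 with ⟨j, hj, hj2⟩ | ⟨j, hj, hj2⟩
    · refine ⟨j, fun x hx hx2 => hj2 (holds_congr (fun a => ?_) hx)⟩
      obtain ⟨s, hs⟩ := hcov _ j hj a
      exact nm_eq (hx2.1.trans h1.symm) hs
    · refine ⟨j, fun x hx hx2 => hj2 (holds_congr (fun a => ?_) hx)⟩
      obtain ⟨s, hs⟩ := hcov _ j hj a
      exact nm_eq (hx2.2.trans h2.symm) hs
  · exact ⟨⟨0, hm⟩, fun x _ hx => hx0 ⟨x, hx⟩⟩

/-- The substituted gate. -/
def sbGate {F : Type} [Field F] {X : Type} [Fintype X] {d : ℕ} (τ : X → Option (Fin n)) (g : CliqueGates.Gate F X d) :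
    PolyGates.Gate F n d where
  E := {h | ∃ g' ∈ g.E, h = fun x => g' (sb τ x)}
  hE := by
    rintro h ⟨g', hg', rfl⟩
    exact DegLE_sb τ g' (g.hE g' hg')

theorem sbGate_holds {F : Type} [Field F] {X : Type} [Fintype X] {d : ℕ} (τ : X → Option (Fin n))
    (g : CliqueGates.Gate F X d) (x : PolyGates.Pt n) : (sbGate τ g).Holds x ↔ g.Holds (sb τ x) := by
  unfold PolyGates.Gate.Holds CliqueGates.Gate.Holds sbGate
  constructor
  · rintro ⟨h, ⟨g', hg', rfl⟩, hx⟩
    exact ⟨g', hg', hx⟩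
  · rintro ⟨g', hg', hx⟩
    exact ⟨_, ⟨g', hg', rfl⟩, hx⟩

/-- The substituted line. -/
def sbLine {F : Type} [Field F] {X : Type} [Fintype X] {N s t : ℕ} (τ : X → Option (Fin n))
    (l : CliqueGates.Line F X N s t) : PolyGates.Line F n N s t where
  a := fun S x => l.a S (sb τ x)
  ha := fun S => DegLE_sb τ (l.a S) (l.ha S)

theorem sbLine_holds {F : Type} [Field F] {X : Type} [Fintype X] {d N s t : ℕ} (τ : X → Option (Fin n))
    (H : Fin N → CliqueGates.Gate F X d) (l : CliqueGates.Line F X N s t) (x : PolyGates.Pt n) :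
    (sbLine τ l).Holds (fun i => sbGate τ (H i)) x ↔ l.Holds H (sb τ x) := by
  unfold PolyGates.Line.Holds CliqueGates.Line.Holds PolyGates.Line.val CliqueGates.Line.val
  have h1 : ∀ S : Finset (Fin N), ∏ i ∈ S, (if (sbGate τ (H i)).Holds x then (1 : F) else 0) =
      ∏ i ∈ S, (if (H i).Holds (sb τ x) then (1 : F) else 0) := by
    intro S
    refine Finset.prod_congr rfl fun i _ => ?_
    by_cases h : (H i).Holds (sb τ x)
    · rw [if_pos h, if_pos ((sbGate_holds τ (H i) x).2 h)]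
    · rw [if_neg h, if_neg (fun h' => h ((sbGate_holds τ (H i) x).1 h'))]
  have h2 : (∑ S ∈ univ.filter (fun S : Finset (Fin N) => S.card ≤ s), (sbLine τ l).a S x *
      ∏ i ∈ S, (if (sbGate τ (H i)).Holds x then (1 : F) else 0)) =
      ∑ S ∈ univ.filter (fun S : Finset (Fin N) => S.card ≤ s), l.a S (sb τ x) *
      ∏ i ∈ S, (if (H i).Holds (sb τ x) then (1 : F) else 0) :=
    Finset.sum_congr rfl fun S _ => by rw [h1 S]; rfl
  rw [h2]

theorem refutes_sub {F : Type} [Field F] {d s t f N : ℕ} {Φ : Fin m → PolyGates.KClause n k0}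
    {T : Fin k → Finset (Fin m)} {τ : Fin k → Fin b → Option (Fin n)} (hcov : Cov Φ T τ) (hm : 0 < m)
    (h : CliqueGates.Refutes F d s t f (gr Φ T τ) N) : PolyGates.Refutes F d s t f Φ N := by
  obtain ⟨H, len, l, ⟨i0, hi0, hlast⟩, hstep⟩ := h
  let τ' : Fin k × Fin b → Option (Fin n) := fun p => τ p.1 p.2
  have hch : ∀ (x : PolyGates.Pt n) (v : CliqueGates.Vertex k b), CliqueGates.Chooses (sb τ' x) v ↔
      nm τ v.1 x = v.2 := by
    intro x v
    constructor
    · intro h1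
      funext s
      exact h1 s
    · intro h1 s
      exact congrFun h1 s
  refine ⟨fun i => sbGate τ' (H i), len, fun i => sbLine τ' (l i), ⟨i0, hi0, ?_⟩, ?_⟩
  · intro x hx
    rw [sbLine_holds] at hx
    exact hlast _ hx
  · intro i hi
    rcases hstep i hi with ⟨v, w, hvw, hadj, h1⟩ | ⟨J, hJ, hJi, h1⟩
    · left
      obtain ⟨j, hj⟩ := axiom_case hcov hvw hadj hm
      refine ⟨j, fun x hx => ?_⟩
      rw [sbLine_holds]
      apply h1
      rw [hch, hch]
      exact hj x hx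
    · right
      refine ⟨J, hJ, hJi, fun x hx => ?_⟩
      rw [sbLine_holds]
      apply h1
      intro j hj
      have := hx j hj
      rw [sbLine_holds] at this
      exact this

/-- No large clique. -/
theorem no_clique {Φ : Fin m → PolyGates.KClause n k0} {T : Fin k → Finset (Fin m)}
    {τ : Fin k → Fin b → Option (Fin n)} (hcov : Cov Φ T τ) {l K : ℕ} (hl : 2 ≤ l)
    (hfew : ∀ x : PolyGates.Pt n, m < 2 ^ K * (univ.filter (fun j => ¬ (Φ j).Holds x)).card)
    (hT : ∀ L : Finset (Fin k), l ≤ L.card → 2 ^ K * (univ.filter (fun j => ∀ i ∈ L, j ∉ T i)).card ≤ m) :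
    (gr Φ T τ).CliqueFree l := by
  intro s hs
  rw [SimpleGraph.isNClique_iff] at hs
  obtain ⟨hcl, hcard⟩ := hs
  have hpart : Set.InjOn (Prod.fst : CliqueGates.Vertex k b → Fin k) s := by
    intro v hv w hw hvw
    by_contra hne
    exact (hcl hv hw hne).1 hvw
  let L : Finset (Fin k) := s.image Prod.fst
  have hL : l ≤ L.card := by
    rw [← hcard, Finset.card_image_of_injOn hpart]
  -- every vertex of the clique has a witness
  have hwit : ∀ v ∈ s, ∃ x : PolyGates.Pt n, nm τ v.1 x = v.2 ∧ ∀ j ∈ T v.1, (Φ j).Holds x := by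
    intro v hv
    have h1 : 1 < s.card := by omega
    obtain ⟨w, hw, hwv⟩ := Finset.exists_mem_ne h1 v
    obtain ⟨_, x, h2, _, h4, _⟩ := hcl hv hw hwv.symm
    exact ⟨x, h2, h4⟩
  -- the combined assignment
  let y : PolyGates.Pt n := fun u => if h : ∃ v ∈ s, ∃ q, τ v.1 q = some u then
    h.choose.2 (h.choose_spec.2.choose) else 0
  have hy : ∀ v ∈ s, ∀ x : PolyGates.Pt n, nm τ v.1 x = v.2 → ∀ q u, τ v.1 q = some u → x u = y u := by
    intro v hv x hx q u hq
    have hex : ∃ v ∈ s, ∃ q, τ v.1 q = some u := ⟨v, hv, q, hq⟩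
    have hyu : y u = hex.choose.2 (hex.choose_spec.2.choose) := dif_pos hex
    have hw : hex.choose ∈ s := hex.choose_spec.1
    have hwq : τ hex.choose.1 (hex.choose_spec.2.choose) = some u := hex.choose_spec.2.choose_spec
    rw [hyu]
    by_cases hvw : v = hex.choose
    · have h1 := congrFun hx (hex.choose_spec.2.choose)
      rw [hvw] at h1
      simp only [nm, hwq, Option.elim_some] at h1
      exact h1
    · obtain ⟨_, x', h2, h3, _, _⟩ := hcl hv hw hvw
      have h4 : x u = x' u := nm_eq (hx.trans h2.symm) hq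
      rw [h4]
      have h5 := congrFun h3 (hex.choose_spec.2.choose)
      simp only [nm, hwq, Option.elim_some] at h5
      exact h5
  have hgood : ∀ i ∈ L, ∀ j ∈ T i, (Φ j).Holds y := by
    intro i hi j hj
    obtain ⟨v, hv, rfl⟩ := Finset.mem_image.1 hi
    obtain ⟨x, hx, hx2⟩ := hwit v hv
    refine holds_congr (fun a => ?_) (hx2 j hj)
    obtain ⟨q, hq⟩ := hcov _ j hj a
    exact hy v hv x hx q _ hq
  have h1 := hfew y
  have h2 := hT L hL
  have h3 : (univ.filter (fun j => ¬ (Φ j).Holds y)).card ≤ (univ.filter (fun j => ∀ i ∈ L, j ∉ T i)).card := by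
    apply Finset.card_le_card
    intro j hj
    rw [Finset.mem_filter] at hj ⊢
    exact ⟨hj.1, fun i hi hji => hj.2 (hgood i hi j hji)⟩
  have h4 := Nat.mul_le_mul_left (2 ^ K) h3
  omega

/-- Slots exist. -/
theorem slots {Φ : Fin m → PolyGates.KClause n k0} {T : Fin k → Finset (Fin m)}
    (h : ∀ i, k0 * (T i).card ≤ b) : ∃ τ : Fin k → Fin b → Option (Fin n), Cov Φ T τ := by
  have h1 : ∀ i, ∃ τ : Fin b → Option (Fin n), ∀ j ∈ T i, ∀ a, ∃ s, τ s = some ((Φ j).1 a) := by
    intro i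
    let W : Finset (Fin n) := (T i).biUnion (fun j => univ.image (Φ j).1)
    have hW : W.card ≤ b := by
      refine le_trans Finset.card_biUnion_le ?_
      refine le_trans (Finset.sum_le_sum (g := fun _ => k0) fun j _ => ?_) ?_
      · exact le_trans Finset.card_image_le (by rw [Finset.card_univ, Fintype.card_fin])
      · rw [Finset.sum_const, smul_eq_mul, mul_comm]
        exact h i
    refine ⟨fun s => if hs : (s : ℕ) < W.card then some (W.equivFin.symm ⟨s, hs⟩ : Fin n) else none, ?_⟩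
    intro j hj a
    have hmem : (Φ j).1 a ∈ W := Finset.mem_biUnion.2 ⟨j, hj, Finset.mem_image_of_mem _ (Finset.mem_univ _)⟩
    have hlt := (W.equivFin ⟨_, hmem⟩).2
    refine ⟨⟨(W.equivFin ⟨_, hmem⟩ : ℕ), lt_of_lt_of_le hlt hW⟩, ?_⟩
    show (if hs : ((W.equivFin ⟨(Φ j).1 a, hmem⟩ : Fin W.card) : ℕ) < W.card then
      some (W.equivFin.symm ⟨((W.equivFin ⟨(Φ j).1 a, hmem⟩ : Fin W.card) : ℕ), hs⟩ : Fin n) else none) = _
    rw [dif_pos hlt]
    simp
  choose τ hτ using h1
  exact ⟨τ, hτ⟩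

end

end H1WG
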