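import Pool.Agent.H1.WG.Defs

/-!
# The brute force refutation with at most `2 (2 ^ b) ^ l` gates
(adapted from helper62's `PL/Easy.lean`)
-/

set_option autoImplicit false
open scoped Classical

namespace H1WG

open CliqueGates

/-- the nodes of the decision tree -/
abbrev Node (n : ℕ) := Σ k : Fin (n + 1), (Fin (k : ℕ) → Bool)

variable {F : Type} [Field F]

theorem Up_deg {X : Type} [Fintype X] (v : X) (c : Bool) :
    DegLE F 1 (fun x : Pt X => if x v = c then (0 : F) else 1) := by
  refine ⟨fun T => if T = {v} then (if c = true then -1 else 1) else if T = ∅ then (if c = true then 1 else 0) else 0,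
    fun x => ?_⟩
  have h1 : ({({v} : Finset X), ∅} : Finset (Finset X)) ⊆
      Finset.univ.filter (fun T : Finset X => T.card ≤ 1) := by
    intro T hT
    rw [Finset.mem_insert, Finset.mem_singleton] at hT
    rw [Finset.mem_filter]
    rcases hT with rfl | rfl
    · exact ⟨Finset.mem_univ _, by simp⟩
    · exact ⟨Finset.mem_univ _, by simp⟩
  rw [← Finset.sum_subset h1]
  · rw [Finset.sum_pair (Finset.singleton_ne_empty v)]
    change (if x v = c then (0 : F) else 1) =
      (if ({v} : Finset X) = {v} then (if c = true then (-1 : F) else 1) else if ({v} : Finset X) = ∅ then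
        (if c = true then 1 else 0) else 0) * (∏ i ∈ ({v} : Finset X), if x i = true then (1 : F) else 0) +
      (if (∅ : Finset X) = {v} then (if c = true then (-1 : F) else 1) else if (∅ : Finset X) = ∅ then
        (if c = true then 1 else 0) else 0) * (∏ i ∈ (∅ : Finset X), if x i = true then (1 : F) else 0)
    rw [if_pos rfl, if_neg (Finset.singleton_ne_empty v).symm, if_pos rfl, Finset.prod_singleton,
      Finset.prod_empty]
    cases hx : x v <;> cases c <;> simp
  · intro T _ hT
    rw [Finset.mem_insert, Finset.mem_singleton, not_or] at hT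
    change (if T = {v} then (if c = true then (-1 : F) else 1) else if T = ∅ then (if c = true then 1 else 0) else 0)
      * _ = 0
    rw [if_neg hT.1, if_neg hT.2, zero_mul]

theorem Up_deg0 {X : Type} [Fintype X] (c : F) : DegLE F 0 (fun _ : Pt X => c) :=
  ⟨fun _ => c, fun x => by
    rw [Finset.sum_eq_single ∅]
    · simp
    · intro T hT hT'
      rw [Finset.mem_filter] at hT
      exact absurd (Finset.card_eq_zero.1 (Nat.le_zero.1 hT.2)) hT'
    · intro h
      exact absurd (Finset.mem_filter.2 ⟨Finset.mem_univ _, by simp⟩) h⟩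

/-- the clause of a node -/
def nodeGate (F : Type) [Field F] {X : Type} [Fintype X] {n : ℕ} (w : Fin n → X) (s : Node n) : Gate F X 1 where
  E := {g | ∃ j : Fin (s.1 : ℕ), g = fun x => if x (w (Fin.castLE (Nat.lt_succ_iff.1 s.1.2) j)) = s.2 j
    then (0 : F) else 1}
  hE := by
    rintro g ⟨j, rfl⟩
    exact Up_deg _ _

theorem nodeGate_false {X : Type} [Fintype X] {n : ℕ} (w : Fin n → X) (s : Node n) (x : Pt X) :
    ¬ (nodeGate F w s).Holds x ↔ ∀ j : Fin (s.1 : ℕ), x (w (Fin.castLE (Nat.lt_succ_iff.1 s.1.2) j)) = s.2 j := by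
  unfold Gate.Holds nodeGate
  constructor
  · intro h j
    by_contra h1
    refine h ⟨_, ⟨j, rfl⟩, ?_⟩
    change (if x (w (Fin.castLE (Nat.lt_succ_iff.1 s.1.2) j)) = s.2 j then (0 : F) else 1) ≠ 0
    rw [if_neg h1]
    exact one_ne_zero
  · rintro h ⟨g, ⟨j, rfl⟩, h1⟩
    apply h1
    change (if x (w (Fin.castLE (Nat.lt_succ_iff.1 s.1.2) j)) = s.2 j then (0 : F) else 1) = 0
    rw [if_pos (h j)]

/-- the line which says that the gate `i` is true: `1 - (gate i) = 0` -/
def oneLine (F : Type) [Field F] (X : Type) [Fintype X] {N : ℕ} (i : Fin N) : Line F X N 1 0 where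
  a := fun S _ => if S = {i} then -1 else if S = ∅ then 1 else 0
  ha := fun S => Up_deg0 _

theorem oneLine_holds {X : Type} [Fintype X] {N d : ℕ} (H : Fin N → Gate F X d) (i : Fin N) (x : Pt X) :
    (oneLine F X i).Holds H x ↔ (H i).Holds x := by
  have h1 : ({({i} : Finset (Fin N)), ∅} : Finset (Finset (Fin N))) ⊆
      Finset.univ.filter (fun T : Finset (Fin N) => T.card ≤ 1) := by
    intro T hT
    rw [Finset.mem_insert, Finset.mem_singleton] at hT
    rw [Finset.mem_filter]
    rcases hT with rfl | rfl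
    · exact ⟨Finset.mem_univ _, by simp⟩
    · exact ⟨Finset.mem_univ _, by simp⟩
  have h2 : (oneLine F X i).val H x = (if (H i).Holds x then (0 : F) else 1) := by
    unfold Line.val
    rw [← Finset.sum_subset h1]
    · rw [Finset.sum_pair (Finset.singleton_ne_empty i)]
      change (if ({i} : Finset (Fin N)) = {i} then (-1 : F) else if ({i} : Finset (Fin N)) = ∅ then 1 else 0) *
        (∏ j ∈ ({i} : Finset (Fin N)), if (H j).Holds x then (1 : F) else 0) +
        (if (∅ : Finset (Fin N)) = {i} then (-1 : F) else if (∅ : Finset (Fin N)) = ∅ then 1 else 0) *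
        (∏ j ∈ (∅ : Finset (Fin N)), if (H j).Holds x then (1 : F) else 0) = _
      rw [if_pos rfl, if_neg (Finset.singleton_ne_empty i).symm, if_pos rfl, Finset.prod_singleton,
        Finset.prod_empty]
      by_cases h : (H i).Holds x
      · rw [if_pos h, if_pos h]
        ring
      · rw [if_neg h, if_neg h]
        ring
    · intro T _ hT
      rw [Finset.mem_insert, Finset.mem_singleton, not_or] at hT
      change (if T = {i} then (-1 : F) else if T = ∅ then 1 else 0) * _ = 0
      rw [if_neg hT.1, if_neg hT.2, zero_mul]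
  unfold Line.Holds
  rw [h2]
  constructor
  · intro h
    by_contra h3
    rw [if_neg h3] at h
    exact one_ne_zero h
  · intro h
    rw [if_pos h]

theorem tree_refutes (F : Type) [Field F] {k b n : ℕ} (G : SimpleGraph (Vertex k b)) (w : Fin n → Fin k × Fin b)
    (hleaf : ∀ a : Fin n → Bool, ∃ u v : Vertex k b, u.1 ≠ v.1 ∧ ¬ G.Adj u v ∧
      ∀ x : Pt (Fin k × Fin b), (∀ j, x (w j) = a j) → Chooses x u ∧ Chooses x v) :
    ∃ N : ℕ, N ≤ 2 ^ (n + 1) ∧ Refutes F 1 1 0 2 G N := by
  have hcard : Fintype.card (Node n) = 2 ^ (n + 1) - 1 := by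
    rw [Fintype.card_sigma]
    simp only [Fintype.card_fun, Fintype.card_bool, Fintype.card_fin]
    rw [Fin.sum_univ_eq_sum_range (fun k => 2 ^ k), Nat.geomSum_eq (le_refl 2)]
    simp
  have hpos : 0 < Fintype.card (Node n) := Fintype.card_pos_iff.2 ⟨⟨⟨0, Nat.succ_pos _⟩, Fin.elim0⟩⟩
  refine ⟨Fintype.card (Node n), by rw [hcard]; exact Nat.sub_le _ _, ?_⟩
  let e0 : Fin (Fintype.card (Node n)) ≃ Node n := (Fintype.equivFin (Node n)).symm
  let ρ : Fin (Fintype.card (Node n)) → ℕ := fun i => n - (e0 i).1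
  let e : Fin (Fintype.card (Node n)) ≃ Node n := (Tuple.sort ρ).trans e0
  have hmono : Monotone (fun i => n - ((e i).1 : ℕ)) := Tuple.monotone_sort ρ
  have hlt : ∀ (s : Node n) (i), (e i).1 < s.1 → e.symm s < i := by
    intro s i hs
    by_contra hc
    have h1 := hmono (not_lt.1 hc)
    simp only [Equiv.apply_symm_apply] at h1
    have h2 := s.1.2
    have h3 : ((e i).1 : ℕ) < s.1 := hs
    omega
  let H : Fin (Fintype.card (Node n)) → Gate F (Fin k × Fin b) 1 := fun i => nodeGate F w (e i)
  let l : ℕ → Line F (Fin k × Fin b) (Fintype.card (Node n)) 1 0 := fun i =>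
    if hi : i < Fintype.card (Node n) then oneLine F _ ⟨i, hi⟩ else oneLine F _ ⟨0, hpos⟩
  have hl : ∀ i (hi : i < Fintype.card (Node n)) (x : Pt (Fin k × Fin b)), (l i).Holds H x ↔
      (nodeGate F w (e ⟨i, hi⟩)).Holds x := by
    intro i hi x
    have h1 : l i = oneLine F _ ⟨i, hi⟩ := dif_pos hi
    rw [h1, oneLine_holds]
  refine ⟨H, Fintype.card (Node n), l, ⟨Fintype.card (Node n) - 1, Nat.sub_lt hpos Nat.one_pos, ?_⟩, ?_⟩
  · intro v
    rw [hl _ (Nat.sub_lt hpos Nat.one_pos), nodeGate_false]
    have h1 : (e ⟨Fintype.card (Node n) - 1, Nat.sub_lt hpos Nat.one_pos⟩).1.1 = 0 := by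
      have h2 := hmono (show e.symm ⟨⟨0, Nat.succ_pos _⟩, Fin.elim0⟩ ≤
        ⟨Fintype.card (Node n) - 1, Nat.sub_lt hpos Nat.one_pos⟩ from Nat.le_sub_one_of_lt (Fin.is_lt _))
      simp only [Equiv.apply_symm_apply] at h2
      have h3 := (e ⟨Fintype.card (Node n) - 1, Nat.sub_lt hpos Nat.one_pos⟩).1.2
      omega
    intro j
    have h2 := j.2
    omega
  · intro i hi
    obtain ⟨s, hs⟩ : ∃ s, s = e ⟨i, hi⟩ := ⟨_, rfl⟩
    rcases Nat.lt_or_ge (s.1 : ℕ) n with hk | hk
    · right
      let c : Bool → Node n := fun z => ⟨⟨s.1 + 1, by omega⟩, Fin.snoc s.2 z⟩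
      refine ⟨{((e.symm (c false) : Fin _) : ℕ), ((e.symm (c true) : Fin _) : ℕ)}, Finset.card_le_two, ?_, ?_⟩
      · intro j hj
        have : ∃ z, j = ((e.symm (c z) : Fin _) : ℕ) := by
          rw [Finset.mem_insert, Finset.mem_singleton] at hj
          rcases hj with hj | hj
          · exact ⟨_, hj⟩
          · exact ⟨_, hj⟩
        obtain ⟨z, rfl⟩ := this
        have h1 : e.symm (c z) < ⟨i, hi⟩ := by
          apply hlt
          rw [← hs, Fin.lt_def]
          exact Nat.lt_succ_self _
        exact h1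
      · intro v hv
        rw [hl i hi, ← hs]
        by_contra hc
        rw [nodeGate_false] at hc
        obtain ⟨z, hz⟩ : ∃ z, z = v (w (Fin.castLE (by omega : (s.1 : ℕ) + 1 ≤ n) (Fin.last _))) := ⟨_, rfl⟩
        have h1 := hv ((e.symm (c z) : Fin _) : ℕ) (by
          rw [Finset.mem_insert, Finset.mem_singleton]
          cases z
          · left; rfl
          · right; rfl)
        rw [hl _ (Fin.is_lt _)] at h1
        have h2 : e ⟨((e.symm (c z) : Fin _) : ℕ), Fin.is_lt _⟩ = c z := Equiv.apply_symm_apply e (c z)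
        rw [h2] at h1
        refine absurd h1 ((nodeGate_false w (c z) v).2 ?_)
        intro j
        refine Fin.lastCases ?_ (fun j => ?_) j
        · change _ = (Fin.snoc s.2 z : Fin ((s.1 : ℕ) + 1) → Bool) (Fin.last _)
          rw [Fin.snoc_last, hz]
        · change _ = (Fin.snoc s.2 z : Fin ((s.1 : ℕ) + 1) → Bool) (Fin.castSucc j)
          rw [Fin.snoc_castSucc]
          exact hc j
    · left
      have hk' : (s.1 : ℕ) = n := le_antisymm (Nat.lt_succ_iff.1 s.1.2) hk
      let a : Fin n → Bool := fun v => s.2 (Fin.cast hk'.symm v)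
      obtain ⟨u, v, huv, hadj, hx⟩ := hleaf a
      refine ⟨u, v, huv, hadj, fun x hxuv => ?_⟩
      rw [hl i hi, ← hs]
      by_contra hc
      rw [nodeGate_false] at hc
      apply hxuv
      apply hx
      intro j
      have h1 := hc (Fin.cast hk'.symm j)
      have h2 : Fin.castLE (Nat.lt_succ_iff.1 s.1.2) (Fin.cast hk'.symm j) = j := by
        ext
        rfl
      rw [h2] at h1
      exact h1

/-- The brute force refutation. -/
theorem upper (F : Type) [Field F] {k b l : ℕ} (hlk : l ≤ k) (G : SimpleGraph (Vertex k b)) (hG : G.CliqueFree l) :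
    ∃ N : ℕ, N ≤ 2 * (2 ^ b) ^ l ∧ Refutes F 1 1 0 2 G N := by
  have h0 : (2 : ℕ) * (2 ^ b) ^ l = 2 ^ (l * b + 1) := by
    rw [pow_succ, ← pow_mul, mul_comm b l, mul_comm]
  rw [h0]
  apply tree_refutes F G (fun s : Fin (l * b) => (Fin.castLE hlk (finProdFinEquiv.symm s).1, (finProdFinEquiv.symm s).2))
  intro a
  let vt : Fin l → Vertex k b := fun i => (Fin.castLE hlk i, fun s => a (finProdFinEquiv (i, s)))
  have hinj : Function.Injective vt := by
    intro i j h
    exact Fin.castLE_injective hlk (congrArg Prod.fst h)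
  have hex : ∃ i j : Fin l, i ≠ j ∧ ¬ G.Adj (vt i) (vt j) := by
    by_contra hcon
    push Not at hcon
    apply hG (Finset.univ.image vt)
    rw [SimpleGraph.isNClique_iff]
    constructor
    · intro u hu v hv huv
      obtain ⟨i, _, rfl⟩ := Finset.mem_image.1 (Finset.mem_coe.1 hu)
      obtain ⟨j, _, rfl⟩ := Finset.mem_image.1 (Finset.mem_coe.1 hv)
      exact hcon i j (fun h => huv (by rw [h]))
    · rw [Finset.card_image_of_injective _ hinj, Finset.card_univ, Fintype.card_fin]
  obtain ⟨i, j, hij, hadj⟩ := hex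
  refine ⟨vt i, vt j, ?_, hadj, ?_⟩
  · intro h
    exact hij (Fin.castLE_injective hlk h)
  · intro x hx
    have h1 : ∀ i, Chooses x (vt i) := by
      intro i s
      have h2 := hx (finProdFinEquiv (i, s))
      simp only [Equiv.symm_apply_apply] at h2
      exact h2
    exact ⟨h1 i, h1 j⟩

end H1WG
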