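import Pool.Agent.H1.WC.Gr
import Pool.Agent.H1.WC.Num
import Pool.Agent.H1.WG.Fals
import Pool.Agent.H1.WG.Sub
import Pool.Agent.H1.WG.Up

/-!
# The clique theorem from the theorem on random CNFs
-/

set_option autoImplicit false
open scoped Classical

namespace H1WG

open Finset

/-- The theorem on random CNFs, for clauses with `d + 3` literals and `2 ^ (d + 6) n` clauses: at most half of the CNFs
have a refutation with few gates. -/
def Base (F : Type) [Field F] (d s f c : ℕ) : Prop := ∀ n, c ≤ n →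
  2 * (univ.filter (fun Φ : Fin (2 ^ (d + 3 + 3) * n) → PolyGates.KClause n (d + 3) =>
    ∃ N, N < 2 ^ (n / c) ∧ PolyGates.Refutes F d s (n / c) f Φ N)).card ≤
    Fintype.card (Fin (2 ^ (d + 3 + 3) * n) → PolyGates.KClause n (d + 3))

variable {F : Type} [Field F]

theorem Main_exist {d s f c n : ℕ} (hc : 1 ≤ c) (hdc : d + 3 ≤ c) (hB : Base F d s f c) (hn : c ≤ n) :
    ∃ Φ : Fin (2 ^ (d + 3 + 3) * n) → PolyGates.KClause n (d + 3),
      (∀ N, PolyGates.Refutes F d s (n / c) f Φ N → 2 ^ (n / c) ≤ N) ∧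
      ∀ x : PolyGates.Pt n, 2 ^ (d + 3 + 3) * n < 2 ^ (d + 3 + 2) * (univ.filter (fun j => ¬ (Φ j).Holds x)).card := by
  have h1 := hB n hn
  have h2 := few_false (n := n) (k := d + 3) (m := 2 ^ (d + 3 + 3) * n) (le_trans hc hn) le_rfl
  have hpos : 0 < Fintype.card (Fin (2 ^ (d + 3 + 3) * n) → PolyGates.KClause n (d + 3)) := by
    apply Fintype.card_pos_iff.2
    exact ⟨fun _ => ((Fin.castLEEmb (le_trans hdc hn)), fun _ => false)⟩
  by_contra hcon
  have h3 : (univ : Finset (Fin (2 ^ (d + 3 + 3) * n) → PolyGates.KClause n (d + 3))) ⊆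
      (univ.filter (fun Φ : Fin (2 ^ (d + 3 + 3) * n) → PolyGates.KClause n (d + 3) =>
        ∃ N, N < 2 ^ (n / c) ∧ PolyGates.Refutes F d s (n / c) f Φ N)) ∪
      (univ.filter (fun Φ : Fin (2 ^ (d + 3 + 3) * n) → PolyGates.KClause n (d + 3) =>
        ∃ x : PolyGates.Pt n, 2 ^ (d + 3 + 2) * (univ.filter (fun j => ¬ (Φ j).Holds x)).card ≤
          2 ^ (d + 3 + 3) * n)) := by
    intro Φ _
    rw [Finset.mem_union, Finset.mem_filter, Finset.mem_filter]
    by_contra hΦ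
    push Not at hΦ
    apply hcon
    refine ⟨Φ, fun N hN => ?_, fun x => ?_⟩
    · by_contra h4
      push Not at h4
      exact hΦ.1 (Finset.mem_univ _) N h4 hN
    · exact hΦ.2 (Finset.mem_univ _) x
  have h4 := le_trans (Finset.card_le_card h3) (Finset.card_union_le _ _)
  rw [Finset.card_univ] at h4
  omega

theorem Main_degmono {X : Type} [Fintype X] {d d' : ℕ} (h : d ≤ d') {g : CliqueGates.Pt X → F}
    (hg : CliqueGates.DegLE F d g) : CliqueGates.DegLE F d' g := by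
  obtain ⟨a, ha⟩ := hg
  refine ⟨fun T => if T.card ≤ d then a T else 0, fun x => ?_⟩
  rw [ha]
  have h1 : (univ.filter (fun T : Finset X => T.card ≤ d)) ⊆ (univ.filter (fun T : Finset X => T.card ≤ d')) := by
    intro T hT
    rw [Finset.mem_filter] at hT ⊢
    exact ⟨hT.1, le_trans hT.2 h⟩
  rw [← Finset.sum_subset h1]
  · refine Finset.sum_congr rfl fun T hT => ?_
    have h2 : (fun T : Finset X => if T.card ≤ d then a T else 0) T = a T := if_pos (Finset.mem_filter.1 hT).2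
    rw [h2]
  · intro T _ hT
    have h2 : ¬ T.card ≤ d := by
      intro h3
      exact hT (Finset.mem_filter.2 ⟨Finset.mem_univ _, h3⟩)
    have h4 : (fun T : Finset X => if T.card ≤ d then a T else 0) T = 0 := if_neg h2
    rw [h4, zero_mul]

theorem Main_mono {k b d s t t' f N : ℕ} {G : SimpleGraph (CliqueGates.Vertex k b)} (h : t ≤ t')
    (hr : CliqueGates.Refutes F d s t f G N) : CliqueGates.Refutes F d s t' f G N := by
  obtain ⟨H, len, l, hlast, hstep⟩ := hr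
  exact ⟨H, len, fun i => ⟨(l i).a, fun S => Main_degmono h ((l i).ha S)⟩, hlast, hstep⟩

theorem main (F : Type) [Field F] {d s f c : ℕ} (hc : 1 ≤ c) (hdc : d + 3 ≤ c) (hB : Base F d s f c) :
    ∃ C, 1 ≤ C ∧ ∀ l k b : ℕ, 2 ≤ l → l ≤ k → C * k ≤ l * b → k ^ C ≤ 2 ^ b →
      ∃ G : SimpleGraph (CliqueGates.Vertex k b), (∀ v w, G.Adj v w → v.1 ≠ w.1) ∧ G.CliqueFree l ∧
        (∀ t N, C * t ≤ l * b → CliqueGates.Refutes F d s t f G N → (2 ^ b) ^ l ≤ N ^ C) ∧
        ∃ N, N ≤ 2 * (2 ^ b) ^ l ∧ CliqueGates.Refutes F 1 1 0 2 G N := by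
  obtain ⟨C, hC, hnum⟩ := H1WC.num (k0 := d + 3) (Δ := 2 ^ (d + 3 + 3)) (c := c) (K := d + 3 + 2) (by omega)
    (Nat.one_le_two_pow) hc
  refine ⟨C, hC, fun l k b hl hlk hCk hkC => ?_⟩
  obtain ⟨t, ν, ht1, htl, h1, h2, h3, hcν, hfin, ht'⟩ := hnum l k b hl hlk hCk hkC
  obtain ⟨Φ, hP1, hP2⟩ := Main_exist hc hdc hB hcν
  obtain ⟨T, hT1, hT2⟩ := H1WC.groups (K := d + 3 + 2) (k := k) (l := l) (M := 2 ^ (d + 3 + 3) * ν) (t := t)
    (by omega) ht1 htl h1 h2
  have hslot : ∀ i, (d + 3) * (T i).card ≤ b := by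
    intro i
    have h4 := hT1 i
    have h5 : t * ((d + 3) * (T i).card) ≤ t * b := by
      calc t * ((d + 3) * (T i).card) = (d + 3) * (t * (T i).card) := by ring
        _ ≤ (d + 3) * (3 * (2 ^ (d + 3 + 3) * ν)) := Nat.mul_le_mul_left _ h4
        _ = 3 * (d + 3) * (2 ^ (d + 3 + 3) * ν) := by ring
        _ ≤ t * b := h3
    exact Nat.le_of_mul_le_mul_left h5 (by omega)
  obtain ⟨τ, hτ⟩ := slots (Φ := Φ) hslot
  have hm : 0 < 2 ^ (d + 3 + 3) * ν := by
    have : 0 < ν := by omega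
    positivity
  have hcf : (gr Φ T τ).CliqueFree l := no_clique hτ hl hP2 hT2
  refine ⟨gr Φ T τ, fun v w h => h.1, hcf, ?_, upper F hlk _ hcf⟩
  intro t0 N ht0 hr
  have h6 := refutes_sub hτ hm (Main_mono (ht' t0 ht0) hr)
  have h7 := hP1 N h6
  calc (2 ^ b) ^ l = 2 ^ (b * l) := (pow_mul 2 b l).symm
    _ ≤ 2 ^ (C * (ν / c)) := Nat.pow_le_pow_right (by norm_num) hfin
    _ = (2 ^ (ν / c)) ^ C := by rw [← pow_mul, mul_comm]
    _ ≤ N ^ C := Nat.pow_le_pow_left h7 C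

/-- `Base` from the theorem on random CNFs. -/
theorem base_of (d s f : ℕ) (h : ∃ c : ℕ, 1 ≤ c ∧ ∀ n m t : ℕ, m ≤ 2 ^ (d + 3 + 3) * n → c * t ≤ n →
    n * (Finset.univ.filter (fun Φ : Fin m → PolyGates.KClause n (d + 3) =>
      ∃ N < 2 ^ (n / c), PolyGates.Refutes F d s t f Φ N)).card ≤
      c * Fintype.card (PolyGates.KClause n (d + 3)) ^ m) :
    ∃ c, 1 ≤ c ∧ d + 3 ≤ c ∧ Base F d s f c := by
  obtain ⟨c, hc, h⟩ := h
  refine ⟨2 * c + d + 3, by omega, by omega, fun n hn => ?_⟩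
  have h1 := h n (2 ^ (d + 3 + 3) * n) (n / (2 * c + d + 3)) le_rfl (by
    have h2 : n / (2 * c + d + 3) * (2 * c + d + 3) ≤ n := Nat.div_mul_le_self _ _
    calc c * (n / (2 * c + d + 3)) ≤ (2 * c + d + 3) * (n / (2 * c + d + 3)) := Nat.mul_le_mul_right _ (by omega)
      _ = n / (2 * c + d + 3) * (2 * c + d + 3) := mul_comm _ _
      _ ≤ n := h2)
  have h3 : (univ.filter (fun Φ : Fin (2 ^ (d + 3 + 3) * n) → PolyGates.KClause n (d + 3) =>
      ∃ N, N < 2 ^ (n / (2 * c + d + 3)) ∧ PolyGates.Refutes F d s (n / (2 * c + d + 3)) f Φ N)).card ≤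
      (univ.filter (fun Φ : Fin (2 ^ (d + 3 + 3) * n) → PolyGates.KClause n (d + 3) =>
      ∃ N < 2 ^ (n / c), PolyGates.Refutes F d s (n / (2 * c + d + 3)) f Φ N)).card := by
    apply Finset.card_le_card
    intro Φ hΦ
    rw [Finset.mem_filter] at hΦ ⊢
    obtain ⟨h4, N, hN, hR⟩ := hΦ
    refine ⟨h4, N, lt_of_lt_of_le hN (Nat.pow_le_pow_right (by norm_num) ?_), hR⟩
    exact Nat.div_le_div_left (by omega) (by omega)
  rw [Fintype.card_fun, Fintype.card_fin]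
  set A := (univ.filter (fun Φ : Fin (2 ^ (d + 3 + 3) * n) → PolyGates.KClause n (d + 3) =>
      ∃ N, N < 2 ^ (n / (2 * c + d + 3)) ∧ PolyGates.Refutes F d s (n / (2 * c + d + 3)) f Φ N)).card with hA
  set B := (univ.filter (fun Φ : Fin (2 ^ (d + 3 + 3) * n) → PolyGates.KClause n (d + 3) =>
      ∃ N < 2 ^ (n / c), PolyGates.Refutes F d s (n / (2 * c + d + 3)) f Φ N)).card with hB
  have h5 : (2 * c) * A ≤ c * Fintype.card (PolyGates.KClause n (d + 3)) ^ (2 ^ (d + 3 + 3) * n) :=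
    le_trans (Nat.mul_le_mul (by omega) h3) h1
  have h6 : c * (2 * A) ≤ c * Fintype.card (PolyGates.KClause n (d + 3)) ^ (2 ^ (d + 3 + 3) * n) := by
    calc c * (2 * A) = (2 * c) * A := by ring
      _ ≤ _ := h5
  exact Nat.le_of_mul_le_mul_left h6 (by omega)

end H1WG
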